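import Pool.Agent.Helper90.KS.TOUCH

/-!
# KS, part F2a (helper90)
-/

set_option autoImplicit false

open Finset

namespace KS.F2a_h90

open scoped Classical

open KS Inst KS.TOUCH_h90

variable {K Δ : ℕ} (I : Inst K)

/-- the half-edges of a path and their partners -/
noncomputable def Sp (η : I.H → I.H) (x : I.H) (l : List I.H) : Finset I.H :=
  (x :: l).toFinset ∪ ((x :: l).toFinset).image η

variable {I}

lemma Sp_closed {η : I.H → I.H} (hη : η ∈ I.Om) (x : I.H) (l : List I.H) :
    ∀ h ∈ Sp I η x l, η h ∈ Sp I η x l := by
  intro h hh
  unfold Sp at hh ⊢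
  rw [mem_union] at hh ⊢
  rcases hh with hh | hh
  · right
    exact mem_image_of_mem _ hh
  · left
    rw [mem_image] at hh
    obtain ⟨a, ha, rfl⟩ := hh
    rw [invol I hη]
    exact ha

lemma Sp_card (η : I.H → I.H) (x : I.H) (l : List I.H) :
    (Sp I η x l).card ≤ 2 * (l.length + 1) := by
  unfold Sp
  have h1 : ((x :: l).toFinset).card ≤ l.length + 1 := by
    simpa using List.toFinset_card_le (x :: l)
  have h2 : (((x :: l).toFinset).image η).card ≤ l.length + 1 := card_image_le.trans h1
  have := card_union_le ((x :: l).toFinset) (((x :: l).toFinset).image η)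
  omega

lemma mem_Sp_self (η : I.H → I.H) (x : I.H) (l : List I.H) : x ∈ Sp I η x l := by
  unfold Sp; simp

lemma Sp_mono (η : I.H → I.H) (x z : I.H) (l : List I.H) : Sp I η z l ⊆ Sp I η x (z :: l) := by
  intro h hh
  unfold Sp at hh ⊢
  rw [mem_union, mem_image] at hh ⊢
  rcases hh with hh | ⟨a, ha, rfl⟩
  · left
    simp only [List.mem_toFinset, List.mem_cons] at hh ⊢
    tauto
  · right
    refine ⟨a, ?_, rfl⟩
    simp only [List.mem_toFinset, List.mem_cons] at ha ⊢
    tauto

lemma path (η : I.H → I.H) : ∀ (l : List I.H) (x : I.H), List.IsChain (Nb η) (x :: l) →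
    ∀ h ∈ Sp I η x l, h.1 ≠ x.1 →
      (∃ h' ∈ Sp I η x l, h' ≠ h ∧ h'.1 = h.1) ∨
        h = η ((x :: l).getLast (List.cons_ne_nil x l)) := by
  intro l
  induction l with
  | nil =>
    intro x _ h hh hx
    right
    simp only [Sp, List.toFinset_cons, List.toFinset_nil, insert_empty_eq, image_singleton,
      mem_union, mem_singleton] at hh
    rcases hh with rfl | rfl
    · exact absurd rfl hx
    · simp
  | cons z l ih =>
    intro x hc h hh hx
    rw [List.isChain_cons_cons] at hc
    obtain ⟨hnb, hc⟩ := hc
    have hz : z ∈ Sp I η x (z :: l) := Sp_mono η x z l (mem_Sp_self η z l)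
    have hcases : h = x ∨ h = η x ∨ h ∈ Sp I η z l := by
      unfold Sp at hh ⊢
      simp only [List.toFinset_cons, mem_union, mem_insert, List.mem_toFinset, mem_image] at hh ⊢
      rcases hh with (rfl | rfl | hh) | ⟨a, (rfl | rfl | ha), rfl⟩
      · simp
      · simp
      · simp [hh]
      · simp
      · right; right; right
        exact ⟨a, Or.inl rfl, rfl⟩
      · right; right; right
        exact ⟨a, Or.inr ha, rfl⟩
    have hηx : η x ∈ Sp I η x (z :: l) := by
      unfold Sp
      simp
    by_cases hhe : h = η x
    · left
      exact ⟨z, hz, by rw [hhe]; exact hnb.2, by rw [hhe]; exact hnb.1⟩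
    rcases hcases with rfl | rfl | hS
    · exact absurd rfl hx
    · exact absurd rfl hhe
    · by_cases hz1 : h.1 = z.1
      · left
        exact ⟨η x, hηx, fun e => hhe e.symm, by rw [hz1, hnb.1]⟩
      · rcases ih z hc h hS hz1 with ⟨h', hh', hne, he⟩ | he
        · left
          exact ⟨h', Sp_mono η x z l hh', hne, he⟩
        · right
          rw [he]
          simp

/-- case of a path which returns to the vertex of `x` -/
lemma caseA {η : I.H → I.H} (hη : η ∈ I.Om) {r : ℕ} {x : I.H} {l : List I.H}
    (hc : List.IsChain (Nb η) (x :: l)) (hl : l.length ≤ r) (he : endv η x l = x.1) :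
    ∃ S : Finset I.H, x ∈ S ∧ (∀ h ∈ S, η h ∈ S) ∧ S.card ≤ 4 * (r + 1) ∧
    ∀ h ∈ S, h.1 ≠ x.1 → ∃ h' ∈ S, h' ≠ h ∧ h'.1 = h.1 := by
  refine ⟨Sp I η x l, mem_Sp_self η x l, Sp_closed hη x l, ?_, ?_⟩
  · have := Sp_card η x l
    omega
  · intro h hh hx
    rcases path η l x hc h hh hx with h1 | h1
    · exact h1
    · exfalso
      apply hx
      rw [h1, ← he]
      rfl

lemma caseB {η : I.H → I.H} (hη : η ∈ I.Om) {r : ℕ} {x : I.H} : ∀ (n : ℕ) (l l' : List I.H),
    l.length + l'.length ≤ n →
    List.IsChain (Nb η) (x :: l) → List.IsChain (Nb η) (x :: l') → l.length ≤ r →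
    l'.length ≤ r → l ≠ l' → endv η x l = endv η x l' →
    ∃ S : Finset I.H, x ∈ S ∧ (∀ h ∈ S, η h ∈ S) ∧ S.card ≤ 4 * (r + 1) ∧
    ∀ h ∈ S, h.1 ≠ x.1 → ∃ h' ∈ S, h' ≠ h ∧ h'.1 = h.1 := by
  intro n
  induction n with
  | zero =>
    intro l l' hn _ _ _ _ hne
    have h1 : l = [] := List.length_eq_zero_iff.1 (by omega)
    have h2 : l' = [] := List.length_eq_zero_iff.1 (by omega)
    exact absurd (h1.trans h2.symm) hne
  | succ n ih =>
    intro l l' hn hc hc' hl hl' hne he
    by_cases hlast : (x :: l).getLast (List.cons_ne_nil x l)
        = (x :: l').getLast (List.cons_ne_nil x l')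
    · -- same last half-edge
      rcases List.eq_nil_or_concat l with rfl | ⟨l1, z, rfl⟩
      · rcases List.eq_nil_or_concat l' with rfl | ⟨l1', z', rfl⟩
        · exact absurd rfl hne
        · have hz : x = z' := by
            have := hlast
            simp at this
            exact this
          have hcc : List.IsChain (Nb η) (x :: l1') ∧
              Nb η ((x :: l1').getLast (List.cons_ne_nil x l1')) z' := by
            have h2 : List.IsChain (Nb η) ((x :: l1') ++ [z']) := by simpa using hc'
            rw [List.isChain_append] at h2
            refine ⟨h2.1, h2.2.2 _ ?_ _ ?_⟩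
            · exact List.getLast?_eq_getLast_of_ne_nil _
            · simp
          refine caseA hη hcc.1 (by simp at hl'; omega) ?_
          unfold endv
          rw [← hcc.2.1, ← hz]
      · rcases List.eq_nil_or_concat l' with rfl | ⟨l1', z', rfl⟩
        · have hz : z = x := by
            have := hlast
            simp at this
            exact this
          have hcc : List.IsChain (Nb η) (x :: l1) ∧
              Nb η ((x :: l1).getLast (List.cons_ne_nil x l1)) z := by
            have h2 : List.IsChain (Nb η) ((x :: l1) ++ [z]) := by simpa using hc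
            rw [List.isChain_append] at h2
            refine ⟨h2.1, h2.2.2 _ ?_ _ ?_⟩
            · exact List.getLast?_eq_getLast_of_ne_nil _
            · simp
          refine caseA hη hcc.1 (by simp at hl; omega) ?_
          unfold endv
          rw [← hcc.2.1, hz]
        · have hz : z = z' := by
            have := hlast
            simp at this
            exact this
          have hcc : List.IsChain (Nb η) (x :: l1) ∧
              Nb η ((x :: l1).getLast (List.cons_ne_nil x l1)) z := by
            have h2 : List.IsChain (Nb η) ((x :: l1) ++ [z]) := by simpa using hc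
            rw [List.isChain_append] at h2
            refine ⟨h2.1, h2.2.2 _ ?_ _ ?_⟩
            · exact List.getLast?_eq_getLast_of_ne_nil _
            · simp
          have hcc' : List.IsChain (Nb η) (x :: l1') ∧
              Nb η ((x :: l1').getLast (List.cons_ne_nil x l1')) z' := by
            have h2 : List.IsChain (Nb η) ((x :: l1') ++ [z']) := by simpa using hc'
            rw [List.isChain_append] at h2
            refine ⟨h2.1, h2.2.2 _ ?_ _ ?_⟩
            · exact List.getLast?_eq_getLast_of_ne_nil _
            · simp
          refine ih l1 l1' ?_ hcc.1 hcc'.1 ?_ ?_ ?_ ?_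
          · simp at hn; omega
          · simp at hl; omega
          · simp at hl'; omega
          · rintro rfl
            exact hne (by rw [hz])
          · unfold endv
            rw [← hcc.2.1, ← hcc'.2.1, hz]
    · refine ⟨Sp I η x l ∪ Sp I η x l', ?_, ?_, ?_, ?_⟩
      · exact mem_union_left _ (mem_Sp_self η x l)
      · intro h hh
        rw [mem_union] at hh ⊢
        rcases hh with hh | hh
        · left; exact Sp_closed hη x l h hh
        · right; exact Sp_closed hη x l' h hh
      · have h1 := Sp_card η x l
        have h2 := Sp_card η x l'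
        have h3 := card_union_le (Sp I η x l) (Sp I η x l')
        omega
      · have hmem : ∀ l : List I.H, η ((x :: l).getLast (List.cons_ne_nil x l)) ∈ Sp I η x l := by
          intro l
          unfold Sp
          rw [mem_union]
          right
          apply mem_image_of_mem
          rw [List.mem_toFinset]
          exact List.getLast_mem _
        intro h hh hx
        rw [mem_union] at hh
        rcases hh with hh | hh
        · rcases path η l x hc h hh hx with ⟨h', a, b, c⟩ | h1
          · exact ⟨h', mem_union_left _ a, b, c⟩
          · refine ⟨η ((x :: l').getLast (List.cons_ne_nil x l')),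
              mem_union_right _ (hmem l'), ?_, ?_⟩
            · rw [h1]
              intro e
              exact hlast (inj I hη e).symm
            · rw [h1]
              exact he.symm
        · rcases path η l' x hc' h hh hx with ⟨h', a, b, c⟩ | h1
          · exact ⟨h', mem_union_right _ a, b, c⟩
          · refine ⟨η ((x :: l).getLast (List.cons_ne_nil x l)),
              mem_union_left _ (hmem l), ?_, ?_⟩
            · rw [h1]
              intro e
              exact hlast (inj I hη e)
            · rw [h1]
              exact he

theorem main : S_F2a := by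
  intro K Δ I hV η hη r x hB
  obtain ⟨l, l', hc, hc', hl, hl', h | h⟩ := hB
  · exact caseB hη _ l l' le_rfl hc hc' hl hl' h.1 h.2
  · exact caseA hη hc hl h

end KS.F2a_h90
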