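import Pool.Agent.Helper90.KS.F2a

/-!
# KS, part F2b (helper90)
-/

set_option autoImplicit false

open Finset

namespace KS.F2b_h90

open scoped Classical

open KS Inst KS.TOUCH_h90 KS.F2a_h90

variable {K Δ : ℕ} {I : Inst K}

lemma bad_mono {η : I.H → I.H} {r r' : ℕ} (h : r ≤ r') {x : I.H} (hB : Bad r η x) :
    Bad r' η x := by
  obtain ⟨l, l', hc, hc', hl, hl', h1⟩ := hB
  exact ⟨l, l', hc, hc', hl.trans h, hl'.trans h, h1⟩

lemma bad_cons {η : I.H → I.H} {r : ℕ} {x y : I.H} (hn : Nb η x y) (hB : Bad r η y) :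
    Bad (r + 1) η x := by
  obtain ⟨l, l', hc, hc', hl, hl', h1⟩ := hB
  have e : ∀ l : List I.H, endv η x (y :: l) = endv η y l := by
    intro l
    simp [endv]
  rcases h1 with ⟨hne, he⟩ | he
  · refine ⟨y :: l, y :: l', List.isChain_cons_cons.2 ⟨hn, hc⟩,
      List.isChain_cons_cons.2 ⟨hn, hc'⟩, by simpa using hl, by simpa using hl', Or.inl ⟨?_, ?_⟩⟩
    · simpa using hne
    · rw [e, e, he]
  · refine ⟨[], y :: l, by simp, List.isChain_cons_cons.2 ⟨hn, hc⟩, by simp, by simpa using hl,
      Or.inl ⟨by simp, ?_⟩⟩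
    rw [e, he, hn.1]
    simp [endv]

/-- a half-edge with two bad children -/
def TE (R : ℕ) (η : I.H → I.H) (x : I.H) : Prop :=
  ∃ y1 y2, y1 ≠ y2 ∧ Nb η x y1 ∧ Nb η x y2 ∧ Bad R η y1 ∧ Bad R η y2

lemma count {S : Finset I.H} (h2 : ∀ h ∈ S, ∃ h' ∈ S, h' ≠ h ∧ h'.1 = h.1)
    (h3 : ∃ a ∈ S, ∃ b ∈ S, ∃ c ∈ S, a ≠ b ∧ a ≠ c ∧ b ≠ c ∧ a.1 = b.1 ∧ a.1 = c.1) :
    2 * (Vs S).card + 1 ≤ S.card := by
  have hsum : S.card = ∑ v ∈ Vs S, (S.filter fun h => h.1 = v).card :=
    card_eq_sum_card_fiberwise (fun x hx => mem_image_of_mem _ hx)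
  obtain ⟨a, ha, b, hb, c, hc, hab, hac, hbc, e1, e2⟩ := h3
  have hge : ∀ v ∈ Vs S, 2 ≤ (S.filter fun h => h.1 = v).card := by
    intro v hv
    unfold Vs at hv
    rw [mem_image] at hv
    obtain ⟨h, hh, rfl⟩ := hv
    obtain ⟨h', hh', hne, he⟩ := h2 h hh
    have : ({h, h'} : Finset I.H) ⊆ S.filter fun k => k.1 = h.1 := by
      intro k hk
      simp only [mem_insert, mem_singleton] at hk
      rcases hk with rfl | rfl
      · simp [hh]
      · simp [hh', he]
    calc 2 = ({h, h'} : Finset I.H).card := (card_pair (Ne.symm hne)).symm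
      _ ≤ _ := card_le_card this
  have hv : a.1 ∈ Vs S := mem_image_of_mem _ ha
  have h3' : 3 ≤ (S.filter fun h => h.1 = a.1).card := by
    have : ({a, b, c} : Finset I.H) ⊆ S.filter fun k => k.1 = a.1 := by
      intro k hk
      simp only [mem_insert, mem_singleton] at hk
      rcases hk with rfl | rfl | rfl
      · simp [ha]
      · simp [hb, e1]
      · simp [hc, e2]
    calc 3 = ({a, b, c} : Finset I.H).card := (card_eq_three.2 ⟨a, b, c, hab, hac, hbc, rfl⟩).symm
      _ ≤ _ := card_le_card this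
  rw [hsum, ← add_sum_erase _ _ hv]
  have : ∑ v ∈ (Vs S).erase a.1, 2 ≤ ∑ v ∈ (Vs S).erase a.1, (S.filter fun h => h.1 = v).card :=
    sum_le_sum fun v hv => hge v (mem_of_mem_erase hv)
  rw [sum_const, card_erase_of_mem hv, smul_eq_mul] at this
  have hpos : 0 < (Vs S).card := card_pos.2 ⟨_, hv⟩
  omega

/-- the vertices inside a path -/
lemma pathV (η : I.H → I.H) : ∀ (l : List I.H) (x : I.H), List.IsChain (Nb η) (x :: l) →
    ∀ h, (h ∈ l ∨ ∃ a ∈ l, h = η a) → h.1 ≠ (η x).1 →
      (∃ h', (h' ∈ l ∨ ∃ a ∈ l, h' = η a) ∧ h' ≠ h ∧ h'.1 = h.1) ∨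
        h.1 = endv η x l := by
  intro l
  induction l with
  | nil => intro x _ h hh; simp at hh
  | cons z l ih =>
    intro x hc h hh hx
    rw [List.isChain_cons_cons] at hc
    obtain ⟨hnb, hc⟩ := hc
    have hend : endv η x (z :: l) = endv η z l := by simp [endv]
    rw [hend]
    have hcases : h = z ∨ h = η z ∨ (h ∈ l ∨ ∃ a ∈ l, h = η a) := by
      rcases hh with hh | ⟨a, ha, rfl⟩
      · rw [List.mem_cons] at hh
        tauto
      · rw [List.mem_cons] at ha
        rcases ha with rfl | ha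
        · tauto
        · right; right; right; exact ⟨a, ha, rfl⟩
    by_cases hz : h = z
    · exact absurd (by rw [hz]; exact hnb.1) hx
    by_cases h1 : h.1 = (η z).1
    · -- at the vertex of the next half-edge
      cases l with
      | nil =>
        right
        rw [h1]
        simp [endv]
      | cons w l =>
        rw [List.isChain_cons_cons] at hc
        left
        by_cases hw : h = w
        · refine ⟨η z, Or.inr ⟨z, by simp, rfl⟩, ?_, h1.symm⟩
          rw [hw]
          exact fun e => hc.1.2 e.symm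
        · refine ⟨w, Or.inl (by simp), fun e => hw e.symm, ?_⟩
          rw [h1]
          exact hc.1.1
    · have hl : h ∈ l ∨ ∃ a ∈ l, h = η a := by
        rcases hcases with e | e | e
        · exact absurd e hz
        · exact absurd (by rw [e]) h1
        · exact e
      rcases ih z hc h hl h1 with ⟨h', hh', hne, he⟩ | he
      · left
        refine ⟨h', ?_, hne, he⟩
        rcases hh' with hh' | ⟨a, ha, e⟩
        · left; exact List.mem_cons_of_mem _ hh'
        · right; exact ⟨a, List.mem_cons_of_mem _ ha, e⟩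
      · right; exact he

lemma noTE (hV : I.Valid Δ) {η : I.H → I.H} (hη : η ∈ I.Om) {r m L : ℕ}
    (hL : 16 * (r + m + 1) + 2 * m ≤ L) (hT : ¬ Tangle L η) (z : I.H) (l : List I.H)
    (hl : l ≠ []) (hlen : l.length ≤ m) (hc : List.IsChain (Nb η) (z :: l))
    (hz : TE (r + m) η z) : ¬ TE (r + m) η ((z :: l).getLast (List.cons_ne_nil z l)) := by
  intro hz'
  set z' := (z :: l).getLast (List.cons_ne_nil z l) with hz'def
  obtain ⟨y1, y2, hy, n1, n2, b1, b2⟩ := hz
  obtain ⟨y3, y4, hy', n3, n4, b3, b4⟩ := hz'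
  have hF := KS.F2a_h90.main K Δ I hV η hη (r + m)
  obtain ⟨S1, m1, c1, k1, p1⟩ := hF y1 b1
  obtain ⟨S2, m2, c2, k2, p2⟩ := hF y2 b2
  obtain ⟨S3, m3, c3, k3, p3⟩ := hF y3 b3
  obtain ⟨S4, m4, c4, k4, p4⟩ := hF y4 b4
  set Q : Finset I.H := l.toFinset ∪ (l.toFinset).image η with hQ
  have hQcard : Q.card ≤ 2 * m := by
    have h1 : (l.toFinset).card ≤ l.length := List.toFinset_card_le l
    have h2 : ((l.toFinset).image η).card ≤ (l.toFinset).card := card_image_le
    have h3 := card_union_le (l.toFinset) ((l.toFinset).image η)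
    rw [← hQ] at h3
    omega
  have hQmem : ∀ h, h ∈ Q ↔ (h ∈ l ∨ ∃ a ∈ l, h = η a) := by
    intro h
    rw [hQ, mem_union, mem_image, List.mem_toFinset]
    constructor
    · rintro (h1 | ⟨a, ha, e⟩)
      · exact Or.inl h1
      · exact Or.inr ⟨a, List.mem_toFinset.1 ha, e.symm⟩
    · rintro (h1 | ⟨a, ha, e⟩)
      · exact Or.inl h1
      · exact Or.inr ⟨a, List.mem_toFinset.2 ha, e.symm⟩
  have hz'l : z' ∈ l := by
    rw [hz'def]
    rw [List.getLast_cons hl]
    exact List.getLast_mem hl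
  set S : Finset I.H := S1 ∪ S2 ∪ S3 ∪ S4 ∪ Q with hS
  have s1 : S1 ⊆ S := by intro a ha; simp [hS, ha]
  have s2 : S2 ⊆ S := by intro a ha; simp [hS, ha]
  have s3 : S3 ⊆ S := by intro a ha; simp [hS, ha]
  have s4 : S4 ⊆ S := by intro a ha; simp [hS, ha]
  have s5 : Q ⊆ S := by intro a ha; simp only [hS, mem_union]; right; exact ha
  apply hT
  refine ⟨S, ?_, ?_, ?_⟩
  · intro h hh
    simp only [hS, mem_union] at hh
    rcases hh with (((hh | hh) | hh) | hh) | hh
    · exact s1 (c1 h hh)
    · exact s2 (c2 h hh)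
    · exact s3 (c3 h hh)
    · exact s4 (c4 h hh)
    · apply s5
      rw [hQmem] at hh ⊢
      rcases hh with hh | ⟨a, ha, rfl⟩
      · right; exact ⟨h, hh, rfl⟩
      · left; rw [invol I hη]; exact ha
  · have h1 := card_union_le (S1 ∪ S2 ∪ S3 ∪ S4) Q
    have h2 := card_union_le (S1 ∪ S2 ∪ S3) S4
    have h3 := card_union_le (S1 ∪ S2) S3
    have h4 := card_union_le S1 S2
    rw [← hS] at h1
    omega
  · have hend : endv η z l = (η z').1 := rfl
    have hηz' : η z' ∈ S := s5 ((hQmem _).2 (Or.inr ⟨z', hz'l, rfl⟩))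
    -- at the vertex of the children of z
    have q0 : ∀ h ∈ S, h.1 = (η z).1 → ∃ h' ∈ S, h' ≠ h ∧ h'.1 = h.1 := by
      intro h _ he
      by_cases e : h = y1
      · exact ⟨y2, s2 m2, by rw [e]; exact fun e' => hy e'.symm, by rw [he]; exact n2.1⟩
      · exact ⟨y1, s1 m1, fun e' => e e'.symm, by rw [he]; exact n1.1⟩
    have q1 : ∀ h ∈ S, h.1 = (η z').1 → ∃ h' ∈ S, h' ≠ h ∧ h'.1 = h.1 := by
      intro h _ he
      by_cases e : h = y3
      · exact ⟨y4, s4 m4, by rw [e]; exact fun e' => hy' e'.symm, by rw [he]; exact n4.1⟩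
      · exact ⟨y3, s3 m3, fun e' => e e'.symm, by rw [he]; exact n3.1⟩
    refine count ?_ ?_
    · intro h hh
      by_cases e0 : h.1 = (η z).1
      · exact q0 h hh e0
      by_cases e1 : h.1 = (η z').1
      · exact q1 h hh e1
      have hh2 := hh
      simp only [hS, mem_union] at hh
      rcases hh with (((hh | hh) | hh) | hh) | hh
      · obtain ⟨h', a, b, c⟩ := p1 h hh (by rw [n1.1]; exact e0)
        exact ⟨h', s1 a, b, c⟩
      · obtain ⟨h', a, b, c⟩ := p2 h hh (by rw [n2.1]; exact e0)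
        exact ⟨h', s2 a, b, c⟩
      · obtain ⟨h', a, b, c⟩ := p3 h hh (by rw [n3.1]; exact e1)
        exact ⟨h', s3 a, b, c⟩
      · obtain ⟨h', a, b, c⟩ := p4 h hh (by rw [n4.1]; exact e1)
        exact ⟨h', s4 a, b, c⟩
      · rcases pathV η l z hc h ((hQmem h).1 hh) e0 with ⟨h', a, b, c⟩ | e
        · exact ⟨h', s5 ((hQmem h').2 a), b, c⟩
        · exact absurd (e.trans hend) e1
    · refine ⟨y3, s3 m3, y4, s4 m4, η z', hηz', hy', n3.2, n4.2, ?_, ?_⟩
      · rw [n3.1, n4.1]
      · exact n3.1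

/-! ### the weights -/

lemma P_nonneg (η : I.H → I.H) (x y : I.H) : 0 ≤ I.P η x y := by
  unfold Inst.P
  split
  · positivity
  · exact le_rfl

lemma Ppow_nonneg (η : I.H → I.H) (n : ℕ) : ∀ x y : I.H, 0 ≤ (I.P η ^ n) x y := by
  induction n with
  | zero =>
    intro x y
    rw [pow_zero, Matrix.one_apply]
    split <;> norm_num
  | succ n ih =>
    intro x y
    rw [pow_succ', Matrix.mul_apply]
    exact sum_nonneg fun z _ => mul_nonneg (P_nonneg η x z) (ih z y)

lemma dg_ge (hV : I.Valid Δ) (x : I.H) : 2 ≤ I.dg x := by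
  have := hV.d3 x.1
  unfold Inst.dg
  omega

lemma children_card (η : I.H → I.H) (x : I.H) :
    (univ.filter fun y : I.H => y.1 = (η x).1 ∧ y ≠ η x).card ≤ I.dg (η x) := by
  have h1 : (univ.filter fun y : I.H => y.1 = (η x).1 ∧ y ≠ η x)
      ⊆ (univ.filter fun y : I.H => y.1 = (η x).1).erase (η x) := by
    intro y hy
    simp only [mem_filter, mem_univ, true_and, mem_erase] at hy ⊢
    exact ⟨hy.2, hy.1⟩
  have h2 := card_le_card h1
  rw [card_erase_of_mem (by simp)] at h2
  have h3 := card_vertex I (η x).1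
  unfold Inst.dg
  omega

lemma P_sum_le (hV : I.Valid Δ) (η : I.H → I.H) (x : I.H) (f : I.H → ℝ) {c : ℝ} (hc : 0 ≤ c)
    (hf : ∀ y, Nb η x y → f y ≤ c) : ∑ y, I.P η x y * f y ≤ c := by
  have h1 : ∑ y, I.P η x y * f y =
      ∑ y ∈ univ.filter (fun y : I.H => y.1 = (η x).1 ∧ y ≠ η x),
        (1 / (I.dg (η x) : ℝ)) * f y := by
    rw [sum_filter]
    apply sum_congr rfl
    intro y _
    unfold Inst.P
    split
    · rfl
    · simp
  rw [h1]
  have hd : (0 : ℝ) < I.dg (η x) := by
    have := dg_ge hV (η x)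
    exact_mod_cast (by omega : 0 < I.dg (η x))
  calc _ ≤ ∑ y ∈ univ.filter (fun y : I.H => y.1 = (η x).1 ∧ y ≠ η x),
        (1 / (I.dg (η x) : ℝ)) * c := by
        apply sum_le_sum
        intro y hy
        simp only [mem_filter, mem_univ, true_and] at hy
        exact mul_le_mul_of_nonneg_left (hf y hy) (by positivity)
    _ = ((univ.filter fun y : I.H => y.1 = (η x).1 ∧ y ≠ η x).card : ℝ) *
        ((1 / (I.dg (η x) : ℝ)) * c) := by simp
    _ ≤ (I.dg (η x) : ℝ) * ((1 / (I.dg (η x) : ℝ)) * c) := by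
        apply mul_le_mul_of_nonneg_right
        · exact_mod_cast children_card η x
        · positivity
    _ = c := by field_simp

lemma P_sum_one (hV : I.Valid Δ) (η : I.H → I.H) (x : I.H) (f : I.H → ℝ) {c : ℝ} (hc : 0 ≤ c)
    (hf : ∀ y, f y ≤ c)
    (h1 : ∀ y1 y2, Nb η x y1 → Nb η x y2 → 0 < f y1 → 0 < f y2 → y1 = y2) :
    ∑ y, I.P η x y * f y ≤ 1 / 2 * c := by
  have hd : (2 : ℝ) ≤ I.dg (η x) := by exact_mod_cast dg_ge hV (η x)
  by_cases he : ∃ y1, Nb η x y1 ∧ 0 < f y1
  · obtain ⟨y1, hn1, hp1⟩ := he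
    calc ∑ y, I.P η x y * f y ≤ ∑ y, (if y = y1 then I.P η x y1 * f y1 else 0) := by
          apply sum_le_sum
          intro y _
          split
          · rename_i e
            rw [e]
          · rename_i e
            by_cases hn : Nb η x y
            · have : f y ≤ 0 := by
                by_contra hcon
                exact e (h1 y y1 hn hn1 (lt_of_not_ge hcon) hp1)
              exact mul_nonpos_of_nonneg_of_nonpos (P_nonneg η x y) this
            · have : I.P η x y = 0 := by
                unfold Inst.P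
                rw [if_neg]
                exact hn
              rw [this, zero_mul]
      _ = I.P η x y1 * f y1 := by simp
      _ ≤ 1 / 2 * c := by
          have h2 : I.P η x y1 ≤ 1 / 2 := by
            unfold Inst.P
            have hn1' : y1.1 = (η x).1 ∧ y1 ≠ η x := hn1
            rw [if_pos hn1']
            apply one_div_le_one_div_of_le <;> linarith
          calc _ ≤ (1 / 2) * f y1 := mul_le_mul_of_nonneg_right h2 hp1.le
            _ ≤ 1 / 2 * c := by
              have := hf y1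
              linarith
  · have : ∑ y, I.P η x y * f y ≤ 0 := by
      apply sum_nonpos
      intro y _
      by_cases hn : Nb η x y
      · apply mul_nonpos_of_nonneg_of_nonpos (P_nonneg η x y)
        by_contra hcon
        exact he ⟨y, hn, lt_of_not_ge hcon⟩
      · have : I.P η x y = 0 := by
          unfold Inst.P
          rw [if_neg]
          exact hn
        rw [this, zero_mul]
    linarith

/-- the probability to be at a bad half-edge at time `j` -/
noncomputable def f (r : ℕ) (η : I.H → I.H) (j : ℕ) (x : I.H) : ℝ :=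
  ∑ z ∈ univ.filter (fun z : I.H => Bad r η z), ((I.P η) ^ j) x z

lemma f_succ (r : ℕ) (η : I.H → I.H) (j : ℕ) (x : I.H) :
    f r η (j + 1) x = ∑ y, I.P η x y * f r η j y := by
  unfold f
  simp_rw [pow_succ', Matrix.mul_apply, mul_sum]
  rw [sum_comm]

lemma f_nonneg (r : ℕ) (η : I.H → I.H) (j : ℕ) (x : I.H) : 0 ≤ f r η j x :=
  sum_nonneg fun z _ => Ppow_nonneg η j x z

lemma f_zero_le (r : ℕ) (η : I.H → I.H) (x : I.H) : f r η 0 x ≤ 1 := by
  unfold f
  simp only [pow_zero, Matrix.one_apply]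
  rw [sum_ite_eq]
  split <;> norm_num

lemma f_pos_bad (r : ℕ) (η : I.H → I.H) : ∀ (j : ℕ) (x : I.H), 0 < f r η j x →
    Bad (r + j) η x := by
  intro j
  induction j with
  | zero =>
    intro x hx
    unfold f at hx
    simp only [pow_zero, Matrix.one_apply] at hx
    rw [sum_ite_eq] at hx
    by_contra hcon
    rw [if_neg (by simpa using hcon)] at hx
    exact lt_irrefl _ hx
  | succ j ih =>
    intro x hx
    rw [f_succ] at hx
    obtain ⟨y, -, hy⟩ := exists_lt_of_sum_lt (s := univ) (f := fun _ : I.H => (0 : ℝ))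
      (g := fun y => I.P η x y * f r η j y) (by simpa using hx)
    have hP : I.P η x y ≠ 0 := by
      intro h0
      rw [h0, zero_mul] at hy
      exact lt_irrefl _ hy
    have hn : Nb η x y := by
      by_contra hcon
      apply hP
      unfold Inst.P
      rw [if_neg]
      exact hcon
    have hf : 0 < f r η j y := by
      by_contra hcon
      have := mul_nonpos_of_nonneg_of_nonpos (P_nonneg η x y) (not_lt.1 hcon)
      linarith
    exact bad_cons hn (ih y hf)

lemma f_le_one (hV : I.Valid Δ) (r : ℕ) (η : I.H → I.H) : ∀ (j : ℕ) (x : I.H),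
    f r η j x ≤ 1 := by
  intro j
  induction j with
  | zero => intro x; exact f_zero_le r η x
  | succ j ih =>
    intro x
    rw [f_succ]
    exact P_sum_le hV η x _ zero_le_one fun y _ => ih y

/-- no type E half-edge is reachable within `j - 1` steps -/
def Free (R : ℕ) (η : I.H → I.H) (j : ℕ) (x : I.H) : Prop :=
  ∀ l : List I.H, List.IsChain (Nb η) (x :: l) → l.length < j →
    ¬ TE R η ((x :: l).getLast (List.cons_ne_nil x l))

lemma not_TE_half (hV : I.Valid Δ) {r m j : ℕ} (η : I.H → I.H) (hj : j < m) (x : I.H)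
    (hx : ¬ TE (r + m) η x) {c : ℝ} (hc : 0 ≤ c) (hf : ∀ y, Nb η x y → f r η j y ≤ c) :
    f r η (j + 1) x ≤ 1 / 2 * c := by
  rw [f_succ]
  have : ∑ y, I.P η x y * f r η j y
      = ∑ y, I.P η x y * (if Nb η x y then f r η j y else 0) := by
    apply sum_congr rfl
    intro y _
    by_cases hn : Nb η x y
    · rw [if_pos hn]
    · have : I.P η x y = 0 := by
        unfold Inst.P
        rw [if_neg]
        exact hn
      rw [this, zero_mul, zero_mul]
  rw [this]
  refine P_sum_one hV η x _ hc ?_ ?_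
  · intro y
    split
    · rename_i hn; exact hf y hn
    · exact hc
  · intro y1 y2 h1 h2 p1 p2
    rw [if_pos h1] at p1
    rw [if_pos h2] at p2
    by_contra hne
    exact hx ⟨y1, y2, hne, h1, h2, bad_mono (by omega) (f_pos_bad r η j y1 p1),
      bad_mono (by omega) (f_pos_bad r η j y2 p2)⟩

lemma free_bound (hV : I.Valid Δ) {r m : ℕ} (η : I.H → I.H) : ∀ (j : ℕ), j ≤ m → ∀ x : I.H,
    Free (r + m) η j x → f r η j x ≤ (1 / 2) ^ j := by
  intro j
  induction j with
  | zero => intro _ x _; simpa using f_zero_le r η x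
  | succ j ih =>
    intro hj x hF
    have h0 : ¬ TE (r + m) η x := by
      have := hF [] (by simp) (by simp)
      simpa using this
    have := not_TE_half hV (r := r) (m := m) η (by omega : j < m) x h0
      (c := (1 / 2) ^ j) (by positivity) (fun y hn => ih (by omega) y (by
        intro l hc hl
        have := hF (y :: l) (List.isChain_cons_cons.2 ⟨hn, hc⟩) (by simpa using hl)
        simpa using this))
    calc _ ≤ _ := this
      _ = (1 / 2) ^ (j + 1) := by ring

lemma all_bound (hV : I.Valid Δ) {η : I.H → I.H} (hη : η ∈ I.Om) {r m L : ℕ}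
    (hL : 16 * (r + m + 1) + 2 * m ≤ L) (hT : ¬ Tangle L η) : ∀ (j : ℕ), j ≤ m → ∀ x : I.H,
    f r η j x ≤ 2 * (1 / 2) ^ j := by
  intro j
  induction j with
  | zero => intro _ x; have := f_zero_le r η x; simpa using this.trans (by norm_num)
  | succ j ih =>
    intro hj x
    by_cases hx : TE (r + m) η x
    · rw [f_succ]
      have : ∑ y, I.P η x y * f r η j y ≤ (1 / 2) ^ j := by
        refine P_sum_le hV η x _ (by positivity) ?_
        intro y hn
        apply free_bound hV (r := r) (m := m) η j (by omega) y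
        intro l hc hl
        have := noTE hV hη hL hT x (y :: l) (by simp) (by simp; omega)
          (List.isChain_cons_cons.2 ⟨hn, hc⟩) hx
        simpa using this
      calc _ ≤ _ := this
        _ = 2 * (1 / 2) ^ (j + 1) := by ring
    · have := not_TE_half hV (r := r) (m := m) η (by omega : j < m) x hx
        (c := 2 * (1 / 2) ^ j) (by positivity) (fun y _ => ih (by omega) y)
      calc _ ≤ _ := this
        _ = 2 * (1 / 2) ^ (j + 1) := by ring

theorem main : S_F2b := by
  intro K Δ I hV η hη r m L hL hT x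
  exact all_bound hV hη hL hT m le_rfl x

end KS.F2b_h90
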