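import Pool.Agent.Helper96.KS.Parts

/-!
# KS, part TOUCH (helper90)
-/

set_option autoImplicit false

open Finset

namespace KS.TOUCH_h90

open scoped Classical

open KS Inst

variable {K Δ : ℕ} (I : Inst K)

lemma invol {η : I.H → I.H} (h : η ∈ I.Om) : ∀ x, η (η x) = x := by
  simp only [Inst.Om, mem_filter] at h
  exact h.2.1

lemma inj {η : I.H → I.H} (h : η ∈ I.Om) : Function.Injective η :=
  Function.Involutive.injective (invol I h)

lemma card_vertex (v : Fin I.n) : (univ.filter fun h : I.H => h.1 = v).card ≤ I.d v := by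
  have : (univ.filter fun h : I.H => h.1 = v) ⊆
      (univ : Finset (Fin (I.d v))).image (fun i => (⟨v, i⟩ : I.H)) := by
    intro h hh
    rw [mem_filter] at hh
    obtain ⟨w, i⟩ := h
    obtain rfl : w = v := hh.2
    exact mem_image.2 ⟨i, mem_univ _, rfl⟩
  calc _ ≤ _ := card_le_card this
    _ ≤ _ := card_image_le
    _ = _ := by simp

lemma card_at (hV : I.Valid Δ) {η : I.H → I.H} (hη : η ∈ I.Om) (v : Fin I.n) :
    (univ.filter fun y : I.H => (η y).1 = v).card ≤ Δ := by
  have : (univ.filter fun y : I.H => (η y).1 = v).card ≤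
      (univ.filter fun h : I.H => h.1 = v).card := by
    apply card_le_card_of_injOn η
    · intro y hy
      simp only [coe_filter, mem_univ, true_and, Set.mem_ofPred_eq] at hy ⊢
      exact hy
    · exact (inj I hη).injOn
  exact this.trans ((card_vertex I v).trans (hV.dΔ v))

/-- half-edges from which `v` is reached in exactly `j` steps -/
noncomputable def T (η : I.H → I.H) (j : ℕ) (v : Fin I.n) : Finset I.H :=
  univ.filter fun y => ∃ l : List I.H, List.IsChain (Nb η) (y :: l) ∧ l.length = j ∧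
    endv η y l = v

lemma card_T (hV : I.Valid Δ) {η : I.H → I.H} (hη : η ∈ I.Om) (v : Fin I.n) :
    ∀ j : ℕ, (T I η j v).card ≤ Δ ^ (j + 1) := by
  intro j
  induction j with
  | zero =>
    have : T I η 0 v ⊆ univ.filter fun y : I.H => (η y).1 = v := by
      intro y hy
      simp only [T, mem_filter, mem_univ, true_and] at hy ⊢
      obtain ⟨l, -, hl, he⟩ := hy
      rw [List.length_eq_zero_iff] at hl
      subst hl
      simpa [endv] using he
    simpa using (card_le_card this).trans (card_at I hV hη v)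
  | succ j ih =>
    have : T I η (j + 1) v ⊆ (T I η j v).biUnion
        (fun z => univ.filter fun y : I.H => (η y).1 = z.1) := by
      intro y hy
      simp only [T, mem_filter, mem_univ, true_and, mem_biUnion] at hy ⊢
      obtain ⟨l, hc, hl, he⟩ := hy
      cases l with
      | nil => simp at hl
      | cons z l =>
        rw [List.isChain_cons_cons] at hc
        refine ⟨z, ⟨l, hc.2, by simpa using hl, ?_⟩, hc.1.1.symm⟩
        rw [← he]
        simp [endv]
    calc _ ≤ _ := card_le_card this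
      _ ≤ ∑ z ∈ T I η j v, (univ.filter fun y : I.H => (η y).1 = z.1).card := card_biUnion_le
      _ ≤ ∑ z ∈ T I η j v, Δ := sum_le_sum fun z _ => card_at I hV hη z.1
      _ = (T I η j v).card * Δ := by simp
      _ ≤ Δ ^ (j + 1) * Δ := Nat.mul_le_mul_right _ ih
      _ = Δ ^ (j + 1 + 1) := by ring

lemma sum_pow (hΔ : 2 ≤ Δ) (r : ℕ) : ∑ j ∈ range (r + 1), Δ ^ (j + 1) ≤ Δ ^ (r + 2) := by
  induction r with
  | zero =>
    simp
    nlinarith
  | succ r ih =>
    rw [sum_range_succ]
    calc _ ≤ Δ ^ (r + 2) + Δ ^ (r + 1 + 1) := by gcongr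
      _ = 2 * Δ ^ (r + 2) := by ring
      _ ≤ Δ * Δ ^ (r + 2) := Nat.mul_le_mul_right _ hΔ
      _ = Δ ^ (r + 1 + 2) := by ring

lemma two_le (hV : I.Valid Δ) : 2 ≤ Δ := by
  have h := hV.npos
  unfold Inst.N at h
  rw [Fintype.card_pos_iff] at h
  obtain ⟨x⟩ := h
  have := hV.d3 x.1
  have := hV.dΔ x.1
  omega

theorem main : S_TOUCH := by
  intro K Δ I hV r η X hη
  have h2 : 2 ≤ Δ := two_le I hV
  have hsub : (univ.filter fun y : I.H => ∃ l : List I.H, List.IsChain (Nb η) (y :: l) ∧
      l.length ≤ r ∧ ∃ h ∈ X, h.1 = endv η y l) ⊆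
      X.biUnion fun h => (range (r + 1)).biUnion fun j => T I η j h.1 := by
    intro y hy
    simp only [mem_filter, mem_univ, true_and, mem_biUnion, T, mem_range] at hy ⊢
    obtain ⟨l, hc, hl, h, hX, he⟩ := hy
    exact ⟨h, hX, l.length, by omega, l, hc, rfl, he.symm⟩
  have : (univ.filter fun y : I.H => ∃ l : List I.H, List.IsChain (Nb η) (y :: l) ∧
      l.length ≤ r ∧ ∃ h ∈ X, h.1 = endv η y l).card ≤ X.card * Δ ^ (r + 2) := by
    calc _ ≤ _ := card_le_card hsub
      _ ≤ ∑ h ∈ X, ((range (r + 1)).biUnion fun j => T I η j h.1).card := card_biUnion_le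
      _ ≤ ∑ h ∈ X, Δ ^ (r + 2) := by
        apply sum_le_sum
        intro h _
        calc _ ≤ ∑ j ∈ range (r + 1), (T I η j h.1).card := card_biUnion_le
          _ ≤ ∑ j ∈ range (r + 1), Δ ^ (j + 1) := sum_le_sum fun j _ => card_T I hV hη h.1 j
          _ ≤ Δ ^ (r + 2) := sum_pow h2 r
      _ = X.card * Δ ^ (r + 2) := by simp
  exact_mod_cast this

end KS.TOUCH_h90
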